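import Mathlib

/-!
# Ample (large) fields
-/

set_option autoImplicit false

namespace Pool.Agent.Helper7.AF

/-- The field `K` is ample (large): it is existentially closed in the field `K((t))` of formal
Laurent series, that is, every finite system of polynomial equations over `K` which has a solution
in `K((t))` has a solution in `K`. -/
def Ample (K : Type) [Field K] : Prop :=
  ∀ (n m : ℕ) (f : Fin m → MvPolynomial (Fin n) K),
    (∃ x : Fin n → LaurentSeries K, ∀ i, MvPolynomial.aeval x (f i) = 0) →
      ∃ x : Fin n → K, ∀ i, MvPolynomial.aeval x (f i) = 0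

theorem Ample.solve {K : Type} [Field K] (hK : Ample K) {ι κ : Type} [Finite ι] [Finite κ]
    (f : κ → MvPolynomial ι K) (x : ι → LaurentSeries K)
    (hx : ∀ i, MvPolynomial.aeval x (f i) = 0) :
    ∃ y : ι → K, ∀ i, MvPolynomial.aeval y (f i) = 0 := by
  obtain ⟨n, ⟨e⟩⟩ := Finite.exists_equiv_fin ι
  obtain ⟨m, ⟨e'⟩⟩ := Finite.exists_equiv_fin κ
  obtain ⟨y, hy⟩ := hK n m (fun j => MvPolynomial.rename e (f (e'.symm j)))
    ⟨x ∘ e.symm, fun j => by
      rw [MvPolynomial.aeval_rename, Function.comp_assoc, Equiv.symm_comp_self,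
        Function.comp_id]
      exact hx _⟩
  refine ⟨y ∘ e, fun i => ?_⟩
  have h := hy (e' i)
  rw [MvPolynomial.aeval_rename, Equiv.symm_apply_apply] at h
  exact h

/-- the coefficientwise map of Laurent series -/
noncomputable def lmap {K N : Type} [Field K] [Field N] (f : K →+* N) :
    LaurentSeries K →+* LaurentSeries N where
  toFun x := HahnSeries.map x f
  map_zero' := by ext; simp
  map_one' := by
    have h := HahnSeries.map_C (Γ := ℤ) (1 : K) f
    rwa [map_one, map_one, map_one] at h
  map_add' x y := by ext; simp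
  map_mul' x y := by
    ext a
    have := HahnSeries.map_mul (f : K →ₙ+* N) (x := x) (y := y)
    exact congrArg (fun z => HahnSeries.coeff z a) this

theorem lmap_coeff {K N : Type} [Field K] [Field N] (f : K →+* N) (x : LaurentSeries K) (a : ℤ) :
    HahnSeries.coeff (lmap f x) a = f (HahnSeries.coeff x a) := rfl

theorem lmap_C {K N : Type} [Field K] [Field N] (f : K →+* N) (x : K) :
    lmap f (HahnSeries.C x) = HahnSeries.C (f x) := HahnSeries.map_C x f

theorem algebraMap_laurent {K : Type} [Field K] (c : K) :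
    algebraMap K (LaurentSeries K) c = HahnSeries.C c := by
  rw [HahnSeries.algebraMap_apply']
  exact HahnSeries.ofPowerSeries_C c

/-- the coordinates of a polynomial over an extension -/
noncomputable def co {K N J ι : Type} [Field K] [Field N] [Algebra K N]
    (b : Module.Basis J K N) (E : MvPolynomial ι N) (j : J) : MvPolynomial ι K :=
  ∑ m ∈ E.support, MvPolynomial.monomial m (b.repr (MvPolynomial.coeff m E) j)

theorem eval_co {K N J ι R S : Type} [Field K] [Field N] [Algebra K N] [Fintype J]
    (b : Module.Basis J K N) (E : MvPolynomial ι N) [CommRing R] [CommRing S] [Algebra K R]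
    (φ : R →+* S) (ψ : N →+* S)
    (h : ∀ c : K, ψ (algebraMap K N c) = φ (algebraMap K R c)) (x : ι → R) :
    MvPolynomial.eval₂ ψ (fun i => φ (x i)) E =
      ∑ j, ψ (b j) * φ (MvPolynomial.aeval x (co b E j)) := by
  classical
  have h1 : ∀ m, ψ (MvPolynomial.coeff m E) = ∑ j, ψ (b j) *
      φ (algebraMap K R (b.repr (MvPolynomial.coeff m E) j)) := by
    intro m
    conv_lhs => rw [← b.sum_repr (MvPolynomial.coeff m E)]
    rw [map_sum]
    refine Finset.sum_congr rfl fun j _ => ?_
    rw [Algebra.smul_def, map_mul, h, mul_comm]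
  rw [MvPolynomial.eval₂_eq]
  simp_rw [co, map_sum, MvPolynomial.aeval_monomial, map_mul, Finset.mul_sum, h1, Finset.sum_mul]
  rw [Finset.sum_comm]
  refine Finset.sum_congr rfl fun j _ => Finset.sum_congr rfl fun m _ => ?_
  rw [Finsupp.prod, map_prod]
  simp_rw [map_pow]
  ring

theorem Ample.solve_ext {K : Type} [Field K] (hK : Ample K) {N : Type} [Field N] [Algebra K N]
    [FiniteDimensional K N] {ι ι' κ : Type} [Finite ι] [Finite ι'] [Finite κ]
    (E : κ → MvPolynomial (ι ⊕ ι') N) (x : ι → LaurentSeries K) (y : ι' → LaurentSeries N)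
    (h : ∀ k, MvPolynomial.eval₂ HahnSeries.C
      (Sum.elim (fun i => lmap (algebraMap K N) (x i)) y) (E k) = 0) :
    ∃ (x : ι → K) (y : ι' → N), ∀ k,
      MvPolynomial.eval (Sum.elim (fun i => algebraMap K N (x i)) y) (E k) = 0 := by
  classical
  let b := Module.finBasis K N
  let d := Module.finrank K N
  let sub : ι ⊕ ι' → MvPolynomial (ι ⊕ ι' × Fin d) N :=
    Sum.elim (fun i => MvPolynomial.X (Sum.inl i))
      (fun i => ∑ j, MvPolynomial.C (b j) * MvPolynomial.X (Sum.inr (i, j)))
  let E' : κ → MvPolynomial (ι ⊕ ι' × Fin d) N := fun k => MvPolynomial.aeval sub (E k)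
  let x' : ι ⊕ ι' × Fin d → LaurentSeries K :=
    Sum.elim x fun v => HahnSeries.map (y v.1) (b.coord v.2)
  have hy : ∀ i, y i = ∑ j, HahnSeries.C (b j) * lmap (algebraMap K N) (x' (Sum.inr (i, j))) := by
    intro i
    ext a
    rw [HahnSeries.coeff_sum]
    simp_rw [HahnSeries.C_apply, HahnSeries.coeff_single_zero_mul, lmap_coeff]
    refine (b.sum_repr ((y i).coeff a)).symm.trans (Finset.sum_congr rfl fun j _ => ?_)
    rw [Algebra.smul_def, mul_comm]
    rfl
  have h1 : ∀ k, MvPolynomial.eval₂ HahnSeries.C (fun i => lmap (algebraMap K N) (x' i)) (E' k) =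
      0 := by
    intro k
    have h2 := h k
    rw [← h2]
    have h3 : (MvPolynomial.eval₂Hom HahnSeries.C (fun i => lmap (algebraMap K N) (x' i))).comp
        (MvPolynomial.aeval (R := N) sub).toRingHom = MvPolynomial.eval₂Hom HahnSeries.C
      (Sum.elim (fun i => lmap (algebraMap K N) (x i)) y) := by
      apply MvPolynomial.ringHom_ext
      · intro r
        simp
      · rintro (i | i)
        · simp [sub, x']
        · have h4 := hy i
          simp only [RingHom.comp_apply, AlgHom.toRingHom_eq_coe, RingHom.coe_coe,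
            MvPolynomial.aeval_X, MvPolynomial.coe_eval₂Hom, MvPolynomial.eval₂_X, sub,
            Sum.elim_inr, MvPolynomial.eval₂_sum, MvPolynomial.eval₂_mul, MvPolynomial.eval₂_C]
          exact h4.symm
    exact congrArg (fun g => g (E k)) h3
  have h2 : ∀ v : κ × Fin d, MvPolynomial.aeval x' (co b (E' v.1) v.2) = 0 := by
    rintro ⟨k, j⟩
    have h3 := h1 k
    rw [eval_co b (E' k) (lmap (algebraMap K N)) HahnSeries.C (fun c => by
      rw [← lmap_C, algebraMap_laurent]) x'] at h3
    ext a
    have h4 := congrArg (fun z => HahnSeries.coeff z a) h3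
    simp only [HahnSeries.coeff_sum, HahnSeries.C_apply, HahnSeries.coeff_single_zero_mul,
      lmap_coeff, HahnSeries.coeff_zero] at h4
    have h5 : ∑ j, (HahnSeries.coeff (MvPolynomial.aeval x' (co b (E' k) j)) a) • b j = 0 := by
      rw [← h4]
      refine Finset.sum_congr rfl fun j _ => ?_
      rw [Algebra.smul_def, mul_comm]
    have h6 := (Fintype.linearIndependent_iff.1 b.linearIndependent) _ h5 j
    rw [h6, HahnSeries.coeff_zero]
  obtain ⟨z, hz⟩ := hK.solve (fun v : κ × Fin d => co b (E' v.1) v.2) x' h2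
  refine ⟨fun i => z (Sum.inl i), fun i => ∑ j, b j * algebraMap K N (z (Sum.inr (i, j))),
    fun k => ?_⟩
  have h3 := eval_co b (E' k) (algebraMap K N) (RingHom.id N) (fun c => rfl) z
  have h4 : MvPolynomial.eval₂ (RingHom.id N) (fun i => algebraMap K N (z i)) (E' k) = 0 := by
    rw [h3]
    refine Finset.sum_eq_zero fun j _ => ?_
    rw [hz (k, j), map_zero, mul_zero]
  rw [← h4]
  have h5 : (MvPolynomial.eval₂Hom (RingHom.id N) (fun i => algebraMap K N (z i))).comp
      (MvPolynomial.aeval (R := N) sub).toRingHom = MvPolynomial.eval₂Hom (RingHom.id N)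
      (Sum.elim (fun i => algebraMap K N (z (Sum.inl i)))
        (fun i => ∑ j, b j * algebraMap K N (z (Sum.inr (i, j))))) := by
    apply MvPolynomial.ringHom_ext
    · intro r
      simp
    · rintro (i | i)
      · simp [sub]
      · simp only [RingHom.comp_apply, AlgHom.toRingHom_eq_coe, RingHom.coe_coe,
          MvPolynomial.aeval_X, MvPolynomial.coe_eval₂Hom, MvPolynomial.eval₂_X, sub,
          Sum.elim_inr, MvPolynomial.eval₂_sum, MvPolynomial.eval₂_mul, MvPolynomial.eval₂_C,
          RingHom.id_apply]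
  exact congrArg (fun g => g (E k)) h5.symm

end Pool.Agent.Helper7.AF
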