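import Pool.Agent.Helper7.AF.Main
import Pool.Graph.R_pool_sql_team_seeded_3997aac3.Q26.SP.Point

/-!
# Beilinson–Soulé vanishing for complex varieties is decided by one ample field
-/

set_option autoImplicit false

namespace Pool.Agent.Helper7.AF

open Cardinal Pool.Agent.Helper7.BS Pool.Agent.Q26.TL AlgebraicGeometry CategoryTheory
open Pool.Agent.Q26.SP.Point

/-- Rational motivic cohomology and higher Chow groups as in `HigherChow`, where the rational
theory satisfies Galois descent. -/
structure HigherChowDescent extends HigherChow where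
  descent : ∀ i n, GaloisDescent (H i n)

/-- the dimension of `Hⁱ(L, ℚ(n))` -/
noncomputable def dimH (M : HigherChowDescent) (L : Type) [Field L] (i n : ℤ) : Cardinal.{0} :=
  Module.rank ℚ (V (M.H i n) L)

/-- `Hⁱ(L, ℚ(n)) = 0` -/
def ZeroH (M : HigherChowDescent) (L : Type) [Field L] (i n : ℤ) : Prop :=
  ∀ x : V (M.H i n) L, x = 0

/-- What the field `L` of characteristic zero decides for a class `C` of smooth complex varieties
which contains the point, with the bound `κ`:

1. the following are equivalent: `CHʲ(X, 2j - k)_ℚ = 0` for all `X` in `C`, all `j` and all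
   `k < 0`; `Hⁱ(F, ℚ(n)) = 0` for all fields `F` of characteristic zero, all `n` and all `i < 0`;
   `H⁻¹(L, ℚ(n)) = 0` for all `n`; the dimension of `H⁻¹(L, ℚ(n))` is less than `κ` for all `n`;
2. for all `n` and `i < 0` the following are equivalent: `CHⁿ(Spec ℂ, 2n - i)_ℚ = 0`;
   `Hⁱ(F, ℚ(n)) = 0` for all fields `F` of characteristic zero; `Hⁱ(L, ℚ(n)) = 0`; the dimension
   of `Hⁱ(L, ℚ(n))` is less than `κ`;
3. if `X` is in `C`, `k < 0` and `CHʲ(X, 2j - k)_ℚ ≠ 0`, then there is a point of `X`, of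
   codimension `c`, such that the dimensions of `Hᵏ⁻²ᶜ(L, ℚ(j - c))` and of
   `H⁻¹(L, ℚ(j + c - 1 - k))` are at least `κ`. -/
def DecidesVarieties (M : HigherChowDescent) (C : VarietyClass) (L : Type) [Field L]
    (κ : Cardinal.{0}) : Prop :=
  [Vanishes M.toHigherChow C, VanishesOnFields M.toHigherChow, ∀ n : ℤ, ZeroH M L (-1) n,
    ∀ n : ℤ, dimH M L (-1) n < κ].TFAE ∧
  (∀ i n : ℤ, i < 0 →
    [∀ x : M.CH SpecC n (2 * n - i), x = 0,
      ∀ (F : Type) [Field F] [CharZero F], ZeroH M F i n, ZeroH M L i n,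
      dimH M L i n < κ].TFAE) ∧
  ∀ (X : Scheme.{0}) (f : X ⟶ SpecC), C.mem X f → ∀ j k : ℤ, k < 0 →
    ∀ x : M.CH X j (2 * j - k), x ≠ 0 →
      ∃ (p : X) (c : ℕ), codim X p = c ∧ κ ≤ dimH M L (k - 2 * c) (j - c) ∧
        κ ≤ dimH M L (-1) (j + c - 1 - k)

theorem dim_zero (M : HigherChowDescent) (L : Type) [Field L] (i n : ℤ) (κ : Cardinal.{0})
    (hκ : 0 < κ) (h : ZeroH M L i n) : dimH M L i n < κ := by
  have : Subsingleton (V (M.H i n) L) := ⟨fun x y => (h x).trans (h y).symm⟩
  rw [dimH, rank_subsingleton']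
  exact hκ

theorem decidesVarieties_of (M : HigherChowDescent) (C : VarietyClass) (L : Type) [Field L]
    [CharZero L] (κ : Cardinal.{0}) (hκ : 0 < κ)
    (h : ∀ i n : ℤ, i < 0 → ∀ (F : Type) [Field F] [CharZero F] (x : V (M.H i n) F),
      x ≠ 0 → κ ≤ dimH M L i n) : DecidesVarieties M C L κ := by
  have hz : ∀ i n : ℤ, i < 0 → dimH M L i n < κ →
      ∀ (F : Type) [Field F] [CharZero F], ZeroH M F i n := by
    intro i n hi hlt F _ _ x
    by_contra hx
    exact absurd hlt (not_lt.2 (h i n hi F x hx))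
  have hu : ∀ i n : ℤ, i < 0 → ∀ (F : Type) [Field F] [CharZero F] (x : V (M.H i n) F),
      x ≠ 0 → κ ≤ dimH M L (-1) (n - 1 - i) := by
    intro i n hi F _ _ x hx
    obtain ⟨m, hm⟩ := Int.eq_ofNat_of_zero_le (show 0 ≤ -1 - i by omega)
    obtain ⟨F', _, _, h5⟩ := M.toTheory.exists_units (P := ℚ) m i n F x hx
    have h3 : i + (m : ℤ) = -1 := by omega
    have h4 : n + (m : ℤ) = n - 1 - i := by omega
    rw [h3, h4] at h5
    obtain ⟨y, hy⟩ := h5
    have : CharZero F' := algebraRat.charZero F'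
    exact h (-1) _ (by omega) F' y hy
  refine ⟨?_, fun i n hi => ?_, ?_⟩
  · tfae_have 1 → 2 := ((main M.toHigherChow C).1.out 0 3).1
    tfae_have 2 → 3 := fun h1 n x => h1 L (-1) n (by omega) x
    tfae_have 3 → 4 := fun h1 n => dim_zero M L (-1) n κ hκ (h1 n)
    tfae_have 4 → 1 := by
      intro h1
      refine ((main M.toHigherChow C).1.out 0 3).2 ?_
      intro F _ _ i n hi x
      by_contra hx
      exact absurd (h1 _) (not_lt.2 (hu i n hi F x hx))
    tfae_finish
  · tfae_have 1 → 2 := by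
      intro h1 F _ _ x
      by_contra hx
      obtain ⟨I, b, hb, hI⟩ := exists_basis
      have : Infinite I := by
        rw [infinite_iff, hI]
        exact aleph0_le_continuum
      obtain ⟨y, hy⟩ := exists_ne_zero (M.good i n) b hb.1 x hx
      obtain ⟨e⟩ := M.point n i
      exact hy (e.symm.map_eq_zero_iff.1 (h1 _))
    tfae_have 2 → 3 := fun h1 => h1 L
    tfae_have 3 → 4 := fun h1 => dim_zero M L i n κ hκ h1
    tfae_have 4 → 1 := by
      intro h1 x
      obtain ⟨e⟩ := M.point n i
      exact e.map_eq_zero_iff.1 (hz i n hi h1 ℂ (e x))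
    tfae_finish
  · intro X f hf j k hk x hx
    obtain ⟨p, c, hc, y, hy⟩ := M.coniveau X f (C.smooth X f hf) j k hk x hx
    have h4 := charZero_residueField X f p
    refine ⟨p, c, hc, h _ _ (by omega) (X.residueField p) y hy, ?_⟩
    have h5 := hu (k - 2 * c) (j - c) (by omega) (X.residueField p) y hy
    have h6 : j - (c : ℤ) - 1 - (k - 2 * c) = j + c - 1 - k := by ring
    rw [h6] at h5
    exact h5

theorem varieties_ample (M : HigherChowDescent) (C : VarietyClass) (K L : Type) [Field K]
    [Algebra ℚ K] [Field L] [Algebra K L] (hK : Ample K) (hκ : ℵ₀ ≤ Algebra.trdeg ℚ K) :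
    DecidesVarieties M C L (Algebra.trdeg ℚ K) := by
  have : CharZero K := algebraRat.charZero K
  have : CharZero L := charZero_of_injective_algebraMap (algebraMap K L).injective
  refine decidesVarieties_of M C L _ (Cardinal.aleph0_pos.trans_le hκ) fun i n hi F _ _ x hx => ?_
  exact law_rank (M.good i n) (M.descent i n) (P := ℚ) hK hκ (M.borel i n hi) x hx

theorem varieties_complete (M : HigherChowDescent) (C : VarietyClass) (K L : Type)
    [NontriviallyNormedField K] [CompleteSpace K] [CharZero K] [Field L] [Algebra K L] :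
    DecidesVarieties M C L #K := by
  have : CharZero L := charZero_of_injective_algebraMap (algebraMap K L).injective
  refine decidesVarieties_of M C L _ (pos_iff_ne_zero.2 (Cardinal.mk_ne_zero K))
    fun i n hi F _ _ x hx => ?_
  obtain ⟨v, hv⟩ := BS.law (M.good i n) (M.descent i n) (P := ℚ) (K := K) (M.borel i n hi) x hx
  have h1 : LinearIndependent ℚ (mp (M.H i n) (algebraMap K L) ∘ v) :=
    hv.map' _ (LinearMap.ker_eq_bot.2 ((M.good i n).inj _))
  exact h1.cardinal_le_rank

end Pool.Agent.Helper7.AF
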