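import Pool.Agent.Helper7.AF.Tuple

/-!
# Many independent tuples
-/

set_option autoImplicit false

namespace Pool.Agent.Helper7.AF

open Cardinal

theorem exists_many {P K Ω ι : Type} [Field P] [Field Ω] [Algebra P Ω] [Finite ι] (z : K → Ω)
    (κ : Cardinal.{0}) (hκ : ℵ₀ ≤ κ) (G : Set (ι → K))
    (hG : ∀ R : Set Ω, #R < κ → ∃ e ∈ G,
      AlgebraicIndependent (IntermediateField.adjoin P R) (fun v => z (e v)))
    (R₀ : Set Ω) (hR₀ : #R₀ < κ) :
    ∃ e : κ.out → ι → K, (∀ ξ, e ξ ∈ G) ∧
      AlgebraicIndependent (IntermediateField.adjoin P R₀)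
        (fun v : κ.out × ι => z (e v.1 v.2)) := by
  classical
  let B := IntermediateField.adjoin P R₀
  rcases isEmpty_or_nonempty ι with hι | hι
  · obtain ⟨e, he, -⟩ := hG R₀ hR₀
    refine ⟨fun _ => e, fun _ => he, ?_⟩
    exact (algebraicIndependent_empty_type_iff (ι := κ.out × ι)).2
      (algebraMap (IntermediateField.adjoin P R₀) Ω).injective
  let Ps : Set (Set (ι → K)) :=
    {S | S ⊆ G ∧ AlgebraicIndependent B (fun v : S × ι => z (v.1.1 v.2))}
  have hempty : (∅ : Set (ι → K)) ∈ Ps := by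
    refine ⟨Set.empty_subset _, ?_⟩
    exact (algebraicIndependent_empty_type_iff (ι := (∅ : Set (ι → K)) × ι)).2
      (algebraMap B Ω).injective
  have hchain : ∀ c ⊆ Ps, IsChain (· ⊆ ·) c → ∃ ub ∈ Ps, ∀ s ∈ c, s ⊆ ub := by
    intro c hc hch
    refine ⟨⋃₀ c, ⟨Set.sUnion_subset fun S hS => (hc hS).1, ?_⟩, fun s hs =>
      Set.subset_sUnion_of_mem hs⟩
    have fin : ∀ s : Finset ((⋃₀ c : Set (ι → K)) × ι), ∃ S ∈ Ps, (S = ∅ ∨ S ∈ c) ∧
        ∀ v ∈ s, (v.1 : ι → K) ∈ S := by
      intro s
      induction s using Finset.induction_on with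
      | empty => exact ⟨∅, hempty, Or.inl rfl, by simp⟩
      | insert v s hv ih =>
        obtain ⟨S, hS1, hS2, hS3⟩ := ih
        obtain ⟨S', hS', hv'⟩ := v.1.2
        rcases hS2 with rfl | hS2
        · refine ⟨S', hc hS', Or.inr hS', fun w hw => ?_⟩
          rcases Finset.mem_insert.1 hw with rfl | hw
          · exact hv'
          · exact absurd (hS3 w hw) (Set.notMem_empty _)
        · rcases hch.total hS2 hS' with h | h
          · refine ⟨S', hc hS', Or.inr hS', fun w hw => ?_⟩
            rcases Finset.mem_insert.1 hw with rfl | hw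
            · exact hv'
            · exact h (hS3 w hw)
          · refine ⟨S, hS1, Or.inr hS2, fun w hw => ?_⟩
            rcases Finset.mem_insert.1 hw with rfl | hw
            · exact h hv'
            · exact hS3 w hw
    rw [algebraicIndependent_iff]
    intro p hp
    obtain ⟨s, q, rfl⟩ := MvPolynomial.exists_finset_rename p
    rw [MvPolynomial.aeval_rename] at hp
    obtain ⟨S, hS1, -, hS3⟩ := fin s
    have h1 : AlgebraicIndependent B (fun v : {x // x ∈ s} => z (v.1.1.1 v.1.2)) := by
      refine AlgebraicIndependent.comp hS1.2 (fun v : {x // x ∈ s} =>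
        ((⟨v.1.1.1, hS3 v.1 v.2⟩, v.1.2) : S × ι)) ?_
      intro v w h
      have h2 := Prod.ext_iff.1 h
      apply Subtype.ext
      exact Prod.ext (Subtype.ext (congrArg (fun x : S => (x : ι → K)) h2.1)) h2.2
    have h2 : q = 0 := (algebraicIndependent_iff.1 h1) q hp
    rw [h2, map_zero]
  obtain ⟨m, hm⟩ := zorn_subset Ps hchain
  have hcard : κ ≤ #m := by
    by_contra hlt
    rw [not_le] at hlt
    let R₁ : Set Ω := R₀ ∪ Set.range (fun v : m × ι => z (v.1.1 v.2))
    have hR₁ : #R₁ < κ := by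
      refine (Cardinal.mk_union_le _ _).trans_lt (Cardinal.add_lt_of_lt hκ hR₀ ?_)
      refine Cardinal.mk_range_le.trans_lt ?_
      rw [Cardinal.mk_prod, Cardinal.lift_id, Cardinal.lift_id]
      exact Cardinal.mul_lt_of_lt hκ hlt ((Cardinal.mk_lt_aleph0 (α := ι)).trans_le hκ)
    obtain ⟨e, he, hind⟩ := hG R₁ hR₁
    let B₁ := IntermediateField.adjoin P R₁
    have hle : B ≤ B₁ := IntermediateField.adjoin.mono P R₀ R₁ Set.subset_union_left
    let _ : Algebra B B₁ := (IntermediateField.inclusion hle).toRingHom.toAlgebra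
    have _ : IsScalarTower B B₁ Ω := .of_algebraMap_eq fun x => rfl
    have hmem : ∀ v : m × ι, z (v.1.1 v.2) ∈ B₁ := fun v =>
      IntermediateField.subset_adjoin P R₁ (Set.subset_union_right ⟨v, rfl⟩)
    have hem : e ∉ m := by
      intro h
      obtain ⟨j⟩ := hι
      have h1 := hind.transcendental j
      exact h1 (isAlgebraic_algebraMap (⟨z (e j), hmem (⟨e, h⟩, j)⟩ : B₁))
    have hsum : AlgebraicIndependent B (Sum.elim (fun v : ι => z (e v))
        (fun v : m × ι => z (v.1.1 v.2))) := by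
      refine AlgebraicIndependent.sumElim_of_tower (S := B₁) hm.1.2 ?_ hind
      rintro _ ⟨v, rfl⟩
      exact ⟨⟨_, hmem v⟩, rfl⟩
    let m' : Set (ι → K) := insert e m
    have hins : m' ∈ Ps := by
      refine ⟨Set.insert_subset he hm.1.1, ?_⟩
      let f : m' × ι → ι ⊕ (m × ι) := fun v =>
        if h : v.1.1 = e then Sum.inl v.2 else
          Sum.inr (⟨v.1.1, (Set.mem_insert_iff.1 v.1.2).resolve_left h⟩, v.2)
      have hf : Function.Injective f := by
        intro v w h
        simp only [f] at h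
        split_ifs at h with h1 h2 h2
        · exact Prod.ext (Subtype.ext (h1.trans h2.symm)) (Sum.inl_injective h)
        · have h3 := Prod.ext_iff.1 (Sum.inr_injective h)
          exact Prod.ext (Subtype.ext (congrArg (fun x : m => (x : ι → K)) h3.1)) h3.2
      have h1 := hsum.comp f hf
      refine Eq.mp ?_ h1
      congr 1
      funext v
      simp only [Function.comp_apply, f]
      split_ifs with h
      · rw [Sum.elim_inl, h]
      · rw [Sum.elim_inr]
    exact hem (hm.2 hins (Set.subset_insert e m) (Set.mem_insert e m))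
  rw [← Cardinal.mk_out κ] at hcard
  obtain ⟨em⟩ := hcard
  refine ⟨fun ξ => (em ξ).1, fun ξ => hm.1.1 (em ξ).2, ?_⟩
  refine AlgebraicIndependent.comp hm.1.2 (fun v : κ.out × ι => (em v.1, v.2)) ?_
  intro v w h
  have h2 := Prod.ext_iff.1 h
  exact Prod.ext (em.injective h2.1) h2.2

end Pool.Agent.Helper7.AF
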