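import Pool.Agent.Helper7.AF.Family
import Pool.Agent.Helper7.BS.Core

/-!
# A law for ample fields
-/

set_option autoImplicit false

namespace Pool.Agent.Helper7.AF

open Cardinal Pool.Agent.Helper7.BS Pool.Agent.Q26.TL

theorem exists_point' {P K T : Type} [Field P] [Finite T] [Field K] [Algebra P K]
    (hκ : ℵ₀ ≤ Algebra.trdeg P K) : ∃ a : T → K, AlgebraicIndependent P a := by
  obtain ⟨s, hs⟩ := exists_isTranscendenceBasis P K
  have h1 : #T ≤ #s := by
    rw [hs.cardinalMk_eq_trdeg]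
    exact (Cardinal.mk_lt_aleph0 (α := T)).le.trans hκ
  obtain ⟨em⟩ := h1
  exact ⟨_, hs.1.comp em em.injective⟩

theorem exists_conjugates' {P K N T Ω : Type} [Field P] [Finite T]
    [Field K] [Algebra P K] [Field N] [Algebra K N]
    [FiniteDimensional K N] [IsGalois K N] [Algebra P N] [IsScalarTower P K N]
    [Field Ω] [Algebra P Ω] (hK : Ample K) (hκ : ℵ₀ ≤ Algebra.trdeg P K)
    (i : N →ₐ[P] Ω) {D : ℕ} (g : Fin (D + 1) → MvPolynomial T P) (a : T → N) (α : N)
    (h0 : pval (fun k => MvPolynomial.aeval a (g k)) α = 0)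
    (h1 : dval (fun k => MvPolynomial.aeval a (g k)) α ≠ 0) :
    ∃ (t : (Algebra.trdeg P K).out → T → N) (α' : (Algebra.trdeg P K).out → N),
      (∀ ξ, pval (fun k => MvPolynomial.aeval (t ξ) (g k)) (α' ξ) = 0) ∧
      AlgebraicIndependent P (fun v : (Algebra.trdeg P K).out × (N ≃ₐ[K] N) × T =>
        i (v.2.1 (t v.1 v.2.2))) := by
  classical
  obtain ⟨n, θ, β, hθ⟩ := exists_trace_duality K N
  let R₀ : Set Ω := (Set.range fun v : (N ≃ₐ[K] N) × Fin n => i (v.1 (θ v.2))) ∪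
    (Set.range fun v : (N ≃ₐ[K] N) × Fin n => i (v.1 (β v.2))) ∪
    (Set.range fun v : (N ≃ₐ[K] N) × T => i (v.1 (a v.2)))
  have hfin : R₀.Finite :=
    ((Set.finite_range _).union (Set.finite_range _)).union (Set.finite_range _)
  have hR₀ : #R₀ < Algebra.trdeg P K :=
    (Cardinal.lt_aleph0_iff_set_finite.2 hfin).trans_le hκ
  obtain ⟨e, he1, he2⟩ := exists_many (P := P) (ι := Fin n × T)
    (fun c : K => i (algebraMap K N c)) (Algebra.trdeg P K) hκ
    {e | ∃ α', pval (fun k =>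
      MvPolynomial.aeval (fun τ => a τ + ∑ j, e (j, τ) • θ j) (g k)) α' = 0}
    (fun R hR => by
      obtain ⟨e, h2, α', h3, -⟩ := exists_tuple (P := P) hK hκ i θ g a α h0 h1 R hR
      exact ⟨e, ⟨α', h3⟩, h2⟩) R₀ hR₀
  choose α' hα' using he1
  refine ⟨fun ξ τ => a τ + ∑ j, e ξ (j, τ) • θ j, α', hα', ?_⟩
  have hB : ∀ r ∈ R₀, r ∈ IntermediateField.adjoin P R₀ := fun r hr =>
    IntermediateField.subset_adjoin P R₀ hr
  refine conj_indep i (IntermediateField.adjoin P R₀) n θ β hθ a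
    (fun σ j => hB _ (Or.inl (Or.inl ⟨(σ, j), rfl⟩)))
    (fun σ j => hB _ (Or.inl (Or.inr ⟨(σ, j), rfl⟩)))
    (fun σ τ => hB _ (Or.inr ⟨(σ, τ), rfl⟩)) (fun ξ j τ => e ξ (j, τ)) ?_
  exact he2

/-- A nonzero class over some field gives as many linearly independent classes over an ample
field as its transcendence degree, if this is infinite. -/
theorem law {H : Fun} (hH : Good H) (hG : GaloisDescent H) {P K F : Type} [Field P]
    [PerfectField P] [Field K] [Algebra P K] (hK : Ample K) (hκ : ℵ₀ ≤ Algebra.trdeg P K)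
    [Field F] [Algebra P F]
    (base : ∀ (k : Type) [Field k] [Algebra P k] [IsAlgClosure P k] (x : V H k), x = 0)
    (x : V H F) (hx : x ≠ 0) :
    ∃ v : (Algebra.trdeg P K).out → V H K, LinearIndependent ℚ v := by
  classical
  obtain ⟨L, _, _, _, s, y, hy⟩ := exists_fg (P := P) hH x hx
  obtain ⟨T, _, x₁, D, g, halg, hemb, hgal⟩ := exists_model (P := P) (F := L)
  obtain ⟨a, ha⟩ := exists_point' (P := P) (K := K) (T := T) hκ
  obtain ⟨N, _, _, _, α, _, _, _, h0, h1⟩ := hgal K a ha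
  let Ω := AlgebraicClosure N
  let i : N →ₐ[P] Ω := IsScalarTower.toAlgHom P N Ω
  obtain ⟨t, α', hr, hind⟩ := exists_conjugates' (K := K) hK hκ i g _ α h0 h1
  have hφ : ∀ ξ, ∃ φ : L →ₐ[P] N, ∀ τ, φ (x₁ τ) = t ξ τ := by
    intro ξ
    refine hemb N (t ξ) (α' ξ) ?_ (hr ξ)
    have h2 : AlgebraicIndependent P (fun τ => i (t ξ τ)) :=
      hind.comp (fun τ : T => (ξ, (1 : N ≃ₐ[K] N), τ)) fun τ τ' h => by simpa using h
    exact h2.of_comp i
  choose φ hφ using hφ
  choose v hv using fun ξ => exists_descent (K := K) hG (φ ξ).toRingHom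
    (mp H (Subring.closure (s : Set L)).subtype y)
  -- the transcendence basis
  let z : (Algebra.trdeg P K).out × (N ≃ₐ[K] N) × T → Ω := fun v => i (v.2.1 (t v.1 v.2.2))
  obtain ⟨S, hS, hb⟩ := exists_isTranscendenceBasis_superset hind.to_subtype_range
  let k := algebraicClosure P Ω
  have hc : IsAlgClosed k := by
    rw [← IsAlgClosed.algebraicClosure_eq_bot_iff k Ω]
    exact algebraicClosure.algebraicClosure_eq_bot P Ω
  have hk : IsAlgClosure P k := ⟨hc, inferInstance⟩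
  have hb' : IsTranscendenceBasis k (Subtype.val : S → Ω) :=
    (Algebra.IsAlgebraic.isTranscendenceBasis_iff P (S := k)).1 hb
  let E : (Algebra.trdeg P K).out × (N ≃ₐ[K] N) → Finset S := fun w =>
    Finset.univ.image fun τ : T => ⟨z (w.1, w.2, τ), hS ⟨_, rfl⟩⟩
  have hE : ∀ w w' : (Algebra.trdeg P K).out × (N ≃ₐ[K] N), w ≠ w' → Disjoint (E w) (E w') := by
    intro w w' hw
    rw [Finset.disjoint_left]
    intro u hu hu'
    obtain ⟨τ, -, h2⟩ := Finset.mem_image.1 hu
    obtain ⟨τ', -, h3⟩ := Finset.mem_image.1 hu'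
    have h4 : z (w.1, w.2, τ) = z (w'.1, w'.2, τ') := congrArg Subtype.val (h2.trans h3.symm)
    have h5 := hind.injective h4
    simp only [Prod.mk.injEq] at h5
    exact hw (Prod.ext h5.1 h5.2.1)
  have halgE : ∀ (w : (Algebra.trdeg P K).out × (N ≃ₐ[K] N)) (u : L),
      IsAlgebraic (Algebra.adjoin k ((Subtype.val : S → Ω) '' (E w : Set S)))
        ((i.toRingHom.comp ((w.2 : N →+* N).comp (φ w.1).toRingHom)) u) := by
    intro w u
    refine alg_of_support (P := P) (k := k) x₁ halg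
      (i.comp (((w.2 : N →ₐ[K] N).restrictScalars P).comp (φ w.1))) _ (fun τ => ?_) u
    refine ⟨⟨z (w.1, w.2, τ), hS ⟨_, rfl⟩⟩, Finset.mem_coe.2 (Finset.mem_image.2
      ⟨τ, Finset.mem_univ _, rfl⟩), ?_⟩
    change i (w.2 (t w.1 τ)) = i (w.2 (φ w.1 (x₁ τ)))
    rw [hφ]
  refine ⟨v, ?_⟩
  rw [linearIndependent_iff']
  intro J q hq ξ hξ
  have h2 : ∑ w ∈ J ×ˢ (Finset.univ : Finset (N ≃ₐ[K] N)),
      mp H ((i.toRingHom.comp ((w.2 : N →+* N).comp (φ w.1).toRingHom)).comp
        (Subring.closure (s : Set L)).subtype) (q w.1 • y) = 0 := by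
    have h3 := congrArg (mp H (i.toRingHom.comp (algebraMap K N))) hq
    rw [map_sum, map_zero] at h3
    rw [Finset.sum_product]
    refine Eq.trans (Finset.sum_congr rfl fun ξ _ => ?_) h3
    rw [map_smul, ← mp_mp, hv, map_sum, Finset.smul_sum]
    refine Finset.sum_congr rfl fun σ _ => ?_
    rw [map_smul, mp_mp, mp_mp]
  have h4 := indep_zero hH (k := k) (Subtype.val : S → Ω) hb' (fun x => base k x) s
    (fun w => q w.1 • y) _ _ E (fun w _ w' _ hw => hE w w' hw) (fun w _ u => halgE w u) h2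
    (ξ, 1) (Finset.mem_product.2 ⟨hξ, Finset.mem_univ _⟩)
  by_contra hne
  rw [map_smul] at h4
  have h5 := (smul_eq_zero.1 h4).resolve_left hne
  rw [← mp_mp] at h5
  exact hy ((injective_iff_map_eq_zero _).1 (hH.inj _) _ h5)

/-- The law for ample fields, in terms of dimensions. -/
theorem law_rank {H : Fun} (hH : Good H) (hG : GaloisDescent H) {P K L F : Type} [Field P]
    [PerfectField P] [Field K] [Algebra P K] (hK : Ample K) (hκ : ℵ₀ ≤ Algebra.trdeg P K)
    [Field L] [Algebra K L] [Field F] [Algebra P F]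
    (base : ∀ (k : Type) [Field k] [Algebra P k] [IsAlgClosure P k] (x : V H k), x = 0)
    (x : V H F) (hx : x ≠ 0) : Algebra.trdeg P K ≤ Module.rank ℚ (V H L) := by
  obtain ⟨v, hv⟩ := law hH hG hK hκ base x hx
  have h1 : LinearIndependent ℚ (mp H (algebraMap K L) ∘ v) :=
    hv.map' _ (LinearMap.ker_eq_bot.2 (hH.inj _))
  have h2 := h1.cardinal_le_rank
  rwa [Cardinal.mk_out] at h2

end Pool.Agent.Helper7.AF
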