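import Pool.Agent.Helper7.AF.Law
import Pool.Agent.Helper7.BS.Main

/-!
# The Beilinson–Soulé conjecture in one characteristic is decided in degree `0` by one ample field
-/

set_option autoImplicit false

namespace Pool.Agent.Helper7.AF

open Cardinal Pool.Agent.Helper7.BS Pool.Agent.Q26.TL Pool.Agent.Q26.SP.Zero

/-- What the field `L` decides, in the characteristic of the prime field `P`, with the bound `κ`.
The following are equivalent:

1. `ℋⁱ(ℤ(n)) = 0` on `Sm/k` for all fields `k` of the characteristic of `P`, `n ≥ 1`, `i ≤ 0`;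
2. `H⁰(L, ℤ(n)) = 0` for all `n ≥ 1`;
3. the dimension of `H⁰(L, ℚ(n))` is less than `κ`, for all `n ≥ 1`;
4. `Hⁱ(F, ℤ(n)) = 0` for all fields `F` of the characteristic of `P`, `n ≥ 1`, `i ≤ 0`;

and for all `i ≤ 0`, `n ≥ 1`: `Hⁱ(L, ℤ(n)) = 0` if and only if `Hⁱ(F, ℤ(n)) = 0` for all fields `F`
of the characteristic of `P`, and `Hⁱ(L, ℚ(n))` is zero or has dimension at least `κ`. -/
def Decides (M : MotivicDescent) (P L : Type) [Field P] [Field L] (κ : Cardinal.{0}) : Prop :=
  [SheavesVanish M.toMotivic P, ZeroVanish M.toMotivic L,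
    ∀ n : ℤ, 1 ≤ n → Module.rank ℚ (V (M.H 0 n) L) < κ,
    FieldsVanish M.toMotivic P].TFAE ∧
  ∀ i n : ℤ, i ≤ 0 → 1 ≤ n →
    (Subsingleton (M.HZ L i n) ↔
      ∀ (F : Type) [Field F] [Algebra P F], Subsingleton (M.HZ F i n)) ∧
    ((∀ x : V (M.H i n) L, x = 0) ∨ κ ≤ Module.rank ℚ (V (M.H i n) L))

theorem subsingleton_of (M : Motivic) (L : Type) [Field L] (i n : ℤ)
    (h : Subsingleton (M.HZ L i n)) : Subsingleton (V (M.H i n) L) :=
  ⟨fun x y => (rational_zero M L i n h x).trans (rational_zero M L i n h y).symm⟩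

theorem decides_of (M : MotivicDescent) (P L : Type) [Field P] [Field L] [Algebra P L]
    (κ : Cardinal.{0}) (hκ : 0 < κ)
    (hs : SheavesVanish M.toMotivic P ↔ FieldsVanish M.toMotivic P)
    (h : ∀ i n : ℤ, i ≤ 0 → 1 ≤ n → ∀ (F : Type) [Field F] [Algebra P F] (x : V (M.H i n) F),
      x ≠ 0 → κ ≤ Module.rank ℚ (V (M.H i n) L)) : Decides M P L κ := by
  have hz : ∀ i n : ℤ, i ≤ 0 → 1 ≤ n → Module.rank ℚ (V (M.H i n) L) < κ →
      ∀ (F : Type) [Field F] [Algebra P F] (x : V (M.H i n) F), x = 0 := by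
    intro i n hi hn hlt F _ _ x
    by_contra hx
    exact absurd hlt (not_lt.2 (h i n hi hn F x hx))
  refine ⟨?_, fun i n hi hn => ⟨⟨fun h1 F _ _ => ?_, fun h1 => h1 L⟩, ?_⟩⟩
  · tfae_have 1 → 2 := fun h1 n hn => hs.1 h1 L 0 n le_rfl hn
    tfae_have 2 → 3 := by
      intro h1 n hn
      have := subsingleton_of M.toMotivic L 0 n (h1 n hn)
      rw [rank_subsingleton']
      exact hκ
    tfae_have 3 → 4 := by
      intro h1 F _ _ i n hi hn
      refine integral_zero M.toMotivic F i n hi hn fun x => ?_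
      by_contra hx
      obtain ⟨m, hm⟩ := Int.eq_ofNat_of_zero_le (show 0 ≤ -i by omega)
      have h5 := M.toTheory.exists_units (P := P) m i n F x hx
      rw [show i + (m : ℤ) = 0 by omega] at h5
      obtain ⟨F', _, _, y, hy⟩ := h5
      exact hy (hz 0 _ le_rfl (by omega) (h1 _ (by omega)) F' y)
    tfae_have 4 → 1 := hs.2
    tfae_finish
  · have := subsingleton_of M.toMotivic L i n h1
    refine integral_zero M.toMotivic F i n hi hn (hz i n hi hn ?_ F)
    rw [rank_subsingleton']
    exact hκ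
  · by_cases h1 : κ ≤ Module.rank ℚ (V (M.H i n) L)
    · exact Or.inr h1
    · exact Or.inl (hz i n hi hn (not_le.1 h1) L)

theorem sheaves_iff (M : Motivic) {P K : Type} [Field P] [Field K] [Algebra P K]
    (hκ : ℵ₀ ≤ Algebra.trdeg P K) (hP : IsPrimeField P) :
    SheavesVanish M P ↔ FieldsVanish M P := by
  obtain ⟨s, hs⟩ := exists_isTranscendenceBasis P K
  have hb := hs.algebraMap_comp (A := AlgebraicClosure K)
  have hinf : Infinite s := by
    rw [Cardinal.infinite_iff, hs.cardinalMk_eq_trdeg]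
    exact hκ
  exact ((main M).2 P (AlgebraicClosure K) s _ hP hb).1.out 0 3

theorem decides_ample (M : MotivicDescent) (P K L : Type) [Field P] [Field K] [Algebra P K]
    [Field L] [Algebra K L] (hP : IsPrimeField P) (hK : Ample K)
    (hκ : ℵ₀ ≤ Algebra.trdeg P K) : Decides M P L (Algebra.trdeg P K) := by
  let _ : Algebra P L := ((algebraMap K L).comp (algebraMap P K)).toAlgebra
  have := prime_perfect P hP
  refine decides_of M P L _ (Cardinal.aleph0_pos.trans_le hκ) (sheaves_iff M.toMotivic hκ hP)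
    fun i n hi hn F _ _ x hx => ?_
  exact law_rank (M.good i n) (M.descent i n) hK hκ (fun k _ _ _ => M.base P k hP i n hi hn) x hx

theorem decides_complete' (M : MotivicDescent) (P K L : Type) [Field P]
    [NontriviallyNormedField K] [CompleteSpace K] [Algebra P K] [Field L] [Algebra K L]
    (hP : IsPrimeField P) : Decides M P L #K := by
  let _ : Algebra P L := ((algebraMap K L).comp (algebraMap P K)).toAlgebra
  refine decides_of M P L _ (pos_iff_ne_zero.2 (Cardinal.mk_ne_zero K))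
    (sheaves_iff_fields M.toMotivic (P := P) (K := K) hP) fun i n hi hn F _ _ x hx => ?_
  by_contra hlt
  exact hx (zero_of_small M hP (K := K) (L := L) i n hi hn (not_le.1 hlt) F x)

theorem decides_laurent' (M : MotivicDescent) (P k L : Type) [Field P] [Field k]
    [Algebra P (LaurentSeries k)] [Field L] [Algebra (LaurentSeries k) L]
    (hP : IsPrimeField P) : Decides M P L #(LaurentSeries k) := by
  let _ := laurentNormed k
  have _ : CompleteSpace (LaurentSeries k) := laurent_complete k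
  exact decides_complete' M P (LaurentSeries k) L hP

/-- a field of each characteristic whose groups in degree zero decide -/
theorem question_of (M : MotivicDescent) (K₀ : Type) [Field K₀]
    (h0 : SheavesVanish M.toMotivic ℚ ↔ ZeroVanish M.toMotivic K₀)
    (K : ∀ (q : ℕ) [Fact q.Prime], Type) [∀ (q : ℕ) [Fact q.Prime], Field (K q)]
    (hq : ∀ (q : ℕ) [Fact q.Prime],
      SheavesVanish M.toMotivic (ZMod q) ↔ ZeroVanish M.toMotivic (K q)) :
    Question M.toMotivic ↔ ZeroVanish M.toMotivic K₀ ∧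
      ∀ (q : ℕ) [Fact q.Prime], ZeroVanish M.toMotivic (K q) := by
  rw [(main M.toMotivic).1]
  constructor
  · intro h
    refine ⟨h0.1 (h ℚ isPrimeField_rat), fun q _ => ?_⟩
    exact (hq q).1 (h (ZMod q) (isPrimeField_zmod q))
  · rintro ⟨h1, h2⟩ P _ hP
    rcases prime_cases P hP with ⟨-, ⟨e⟩⟩ | ⟨q, hq', ⟨e⟩⟩
    · intro k _ _
      let _ : Algebra ℚ k := ((algebraMap P k).comp e.toRingHom).toAlgebra
      exact h0.2 h1 k
    · intro k _ _
      let _ : Algebra (ZMod q) k := ((algebraMap P k).comp e.toRingHom).toAlgebra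
      exact (hq q).2 (h2 q) k

/-- the question is decided by one ample field of each characteristic -/
theorem question_ample (M : MotivicDescent) (K₀ : Type) [Field K₀] [Algebra ℚ K₀] (h₀ : Ample K₀)
    (hκ₀ : ℵ₀ ≤ Algebra.trdeg ℚ K₀) (K : ∀ (q : ℕ) [Fact q.Prime], Type)
    [∀ (q : ℕ) [Fact q.Prime], Field (K q)] [∀ (q : ℕ) [Fact q.Prime], Algebra (ZMod q) (K q)]
    (h : ∀ (q : ℕ) [Fact q.Prime], Ample (K q))
    (hκ : ∀ (q : ℕ) [Fact q.Prime], ℵ₀ ≤ Algebra.trdeg (ZMod q) (K q)) :
    Question M.toMotivic ↔ ZeroVanish M.toMotivic K₀ ∧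
      ∀ (q : ℕ) [Fact q.Prime], ZeroVanish M.toMotivic (K q) :=
  question_of M K₀ ((decides_ample M ℚ K₀ K₀ isPrimeField_rat h₀ hκ₀).1.out 0 1) K fun q _ =>
    (decides_ample M (ZMod q) (K q) (K q) (isPrimeField_zmod q) (h q) (hκ q)).1.out 0 1

end Pool.Agent.Helper7.AF
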