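import Pool.Agent.Helper7.AF.Ample
import Pool.Agent.Helper7.BS.Root
import Pool.Agent.Helper7.BS.Laurent

/-!
# Points on curves over ample fields
-/

set_option autoImplicit false

namespace Pool.Agent.Helper7.AF

open Filter Topology Pool.Agent.Helper7.BS

theorem continuous_dval {N : Type} [NontriviallyNormedField N] {D : ℕ} :
    Continuous fun v : (Fin (D + 1) → N) × N => dval v.1 v.2 := by
  unfold dval
  fun_prop

theorem root_near' {N : Type} [NontriviallyNormedField N]
    [CompleteSpace N] {D : ℕ} (c : Fin (D + 1) → N) (a : N) (h0 : pval c a = 0)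
    (h1 : dval c a ≠ 0) : ∀ᶠ c' in 𝓝 c, ∃ a', pval c' a' = 0 ∧ dval c' a' ≠ 0 := by
  let E₁ := Fin (D + 1) → N
  let pr : ∀ k : Fin (D + 1), (E₁ × N) →L[N] N := fun k =>
    (ContinuousLinearMap.proj (R := N) (φ := fun _ => N) k).comp (ContinuousLinearMap.fst N E₁ N)
  let f : E₁ × N → N := fun v => pval v.1 v.2
  have hf : ∃ f' : (E₁ × N) →L[N] N, HasStrictFDerivAt f f' (c, a) ∧
      ∀ w : N, f' (0, w) = dval c a * w := by
    have h2 : ∀ k : Fin (D + 1), ∃ g : (E₁ × N) →L[N] N,
        HasStrictFDerivAt (fun v : E₁ × N => v.1 k * v.2 ^ (k : ℕ)) g (c, a) ∧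
        ∀ w : N, g (0, w) = c k * ((k : ℕ) * a ^ ((k : ℕ) - 1)) * w := by
      intro k
      have e1 : HasStrictFDerivAt (fun v : E₁ × N => v.1 k) (pr k) (c, a) :=
        (pr k).hasStrictFDerivAt
      have e2 : HasStrictFDerivAt (fun v : E₁ × N => v.2 ^ (k : ℕ)) _ (c, a) :=
        (ContinuousLinearMap.snd N E₁ N).hasStrictFDerivAt.pow (k : ℕ)
      refine ⟨_, e1.mul e2, fun w => ?_⟩
      have h3 : pr k (0, w) = 0 := rfl
      simp [h3]
      ring
    choose g hg1 hg2 using h2
    refine ⟨∑ k, g k, ?_, fun w => ?_⟩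
    · have := HasStrictFDerivAt.fun_sum (u := Finset.univ) (fun k _ => hg1 k)
      exact this
    · rw [sum_apply, dval, Finset.sum_mul]
      exact Finset.sum_congr rfl fun k _ => hg2 k w
  obtain ⟨f', hf1, hf2⟩ := hf
  have hinv : (f' ∘L .inr N E₁ N).IsInvertible := by
    obtain ⟨u, hu⟩ := isUnit_iff_ne_zero.2 h1
    refine ContinuousLinearMap.IsInvertible.of_inverse (g := ContinuousLinearMap.mul N N ↑u⁻¹) ?_ ?_
    · ext
      change f' (0, ↑u⁻¹ * 1) = 1
      rw [hf2, ← hu, Units.mul_inv_cancel_left]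
    · ext
      change ↑u⁻¹ * f' (0, 1) = 1
      rw [hf2, ← hu, Units.inv_mul_cancel_left]
  have h2 := hf1.eventually_apply_implicitFunctionOfProdDomain hinv
  have h3 := hf1.tendsto_implicitFunctionOfProdDomain hinv
  have h4 : Tendsto (fun c' => (c', hf1.implicitFunctionOfProdDomain hinv c')) (𝓝 c)
      (𝓝 (c, a)) := by
    rw [nhds_prod_eq]
    exact tendsto_id.prodMk h3
  have h5 := ((continuous_dval (N := N) (D := D)).tendsto (c, a)).comp h4
  have h6 := h5.eventually_ne h1
  filter_upwards [h2, h6] with c' hc' hc''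
  exact ⟨_, hc'.trans h0, hc''⟩

/-- the variable of the field of Laurent series -/
noncomputable def tt (N : Type) [Field N] : LaurentSeries N := HahnSeries.single 1 1

theorem laurent_root {N : Type} [Field N] {D : ℕ} (Q : Fin (D + 1) → Polynomial N) (α : N)
    (h0 : pval (fun k => (Q k).eval 0) α = 0) (h1 : dval (fun k => (Q k).eval 0) α ≠ 0) (u : N) :
    ∀ᶠ M : ℕ in atTop, ∃ y : LaurentSeries N,
      pval (fun k => (Q k).eval₂ HahnSeries.C (HahnSeries.C u * tt N ^ M)) y = 0 ∧
      dval (fun k => (Q k).eval₂ HahnSeries.C (HahnSeries.C u * tt N ^ M)) y ≠ 0 := by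
  let _ := laurentNormed N
  have _ : CompleteSpace (LaurentSeries N) := laurent_complete N
  let c : Fin (D + 1) → LaurentSeries N := fun k => HahnSeries.C ((Q k).eval 0)
  have hC : Function.Injective (HahnSeries.C : N →+* LaurentSeries N) :=
    HahnSeries.C_injective
  have e0 : pval c (HahnSeries.C α) = 0 := by
    have h2 := congrArg (HahnSeries.C : N →+* LaurentSeries N) h0
    rw [map_zero] at h2
    rw [← h2]
    simp only [pval, c, map_sum, map_mul, map_pow]
  have e1 : dval c (HahnSeries.C α) ≠ 0 := by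
    intro h2
    apply h1
    apply hC
    rw [map_zero, ← h2]
    simp only [dval, c, map_sum, map_mul, map_pow, map_natCast]
  have h2 := root_near' c (HahnSeries.C α) e0 e1
  have ht : ‖tt N‖ < 1 := by
    let _ := rankOneLaurent N
    refine (Valued.toNormedField.norm_lt_one_iff (L := LaurentSeries N)
      (Γ₀ := WithZero (Multiplicative ℤ)) (x := tt N)).2 ?_
    rw [tt, LaurentSeries.valuation_single_zpow, ← WithZero.exp_zero, WithZero.exp_lt_exp]
    norm_num
  have h3 : Tendsto (fun M : ℕ => HahnSeries.C u * tt N ^ M) atTop (𝓝 0) := by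
    have := (tendsto_pow_atTop_nhds_zero_of_norm_lt_one ht).const_mul (HahnSeries.C u)
    rwa [mul_zero] at this
  have h4 : Continuous fun z : LaurentSeries N => fun k : Fin (D + 1) =>
      (Q k).eval₂ HahnSeries.C z := by
    refine continuous_pi fun k => ?_
    simp_rw [Polynomial.eval₂_eq_sum_range]
    fun_prop
  have h5 : (fun k : Fin (D + 1) => (Q k).eval₂ HahnSeries.C (0 : LaurentSeries N)) = c := by
    funext k
    have := Polynomial.hom_eval₂ (Q k) (RingHom.id N) (HahnSeries.C : N →+* LaurentSeries N) 0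
    rw [map_zero] at this
    exact this.symm
  have h6 := (h4.tendsto 0).comp h3
  rw [h5] at h6
  exact h6.eventually h2

theorem map_pval {A B : Type} [CommSemiring A] [CommSemiring B] (g : A →+* B) {D : ℕ}
    (c : Fin (D + 1) → A) (a : A) : g (pval c a) = pval (fun k => g (c k)) (g a) := by
  simp only [pval, map_sum, map_mul, map_pow]

theorem map_dval {A B : Type} [CommSemiring A] [CommSemiring B] (g : A →+* B) {D : ℕ}
    (c : Fin (D + 1) → A) (a : A) : g (dval c a) = dval (fun k => g (c k)) (g a) := by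
  simp only [dval, map_sum, map_mul, map_pow, map_natCast]

/-- the equations -/
noncomputable def eqs {N : Type} [Field N] {D : ℕ} (Q : Fin (D + 1) → Polynomial N) (u : N) :
    Fin 5 → MvPolynomial (Fin 2 ⊕ Fin 4) N :=
  ![MvPolynomial.X (Sum.inl 0) * MvPolynomial.X (Sum.inl 1) - 1,
    pval (fun k => (Q k).eval₂ MvPolynomial.C (MvPolynomial.X (Sum.inl 0)))
      (MvPolynomial.X (Sum.inr 0)),
    dval (fun k => (Q k).eval₂ MvPolynomial.C (MvPolynomial.X (Sum.inl 0)))
      (MvPolynomial.X (Sum.inr 0)) * MvPolynomial.X (Sum.inr 1) - 1,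
    pval (fun k => (Q k).eval₂ MvPolynomial.C (MvPolynomial.C u * MvPolynomial.X (Sum.inl 0)))
      (MvPolynomial.X (Sum.inr 2)),
    dval (fun k => (Q k).eval₂ MvPolynomial.C (MvPolynomial.C u * MvPolynomial.X (Sum.inl 0)))
      (MvPolynomial.X (Sum.inr 2)) * MvPolynomial.X (Sum.inr 3) - 1]

theorem eqs_iff {N S : Type} [Field N] [CommRing S] {D : ℕ} (Q : Fin (D + 1) → Polynomial N)
    (u : N) (ψ : N →+* S) (v : Fin 2 ⊕ Fin 4 → S) :
    (∀ k, MvPolynomial.eval₂ ψ v (eqs Q u k) = 0) ↔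
      v (Sum.inl 0) * v (Sum.inl 1) = 1 ∧
      pval (fun k => (Q k).eval₂ ψ (v (Sum.inl 0))) (v (Sum.inr 0)) = 0 ∧
      dval (fun k => (Q k).eval₂ ψ (v (Sum.inl 0))) (v (Sum.inr 0)) * v (Sum.inr 1) = 1 ∧
      pval (fun k => (Q k).eval₂ ψ (ψ u * v (Sum.inl 0))) (v (Sum.inr 2)) = 0 ∧
      dval (fun k => (Q k).eval₂ ψ (ψ u * v (Sum.inl 0))) (v (Sum.inr 2)) * v (Sum.inr 3) = 1 := by
  have hc : (MvPolynomial.eval₂Hom ψ v).comp MvPolynomial.C = ψ := by
    ext
    simp
  have h1 : ∀ (z : MvPolynomial (Fin 2 ⊕ Fin 4) N) (q : Polynomial N),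
      MvPolynomial.eval₂Hom ψ v (q.eval₂ MvPolynomial.C z) =
        q.eval₂ ψ (MvPolynomial.eval₂Hom ψ v z) := by
    intro z q
    rw [Polynomial.hom_eval₂, hc]
  simp only [← MvPolynomial.coe_eval₂Hom]
  simp only [eqs, Fin.forall_fin_succ, Matrix.cons_val_zero, Matrix.cons_val_succ, map_sub,
    map_mul, map_one, map_pval, map_dval, h1, sub_eq_zero, IsEmpty.forall_iff, and_true]
  simp

/-- Over an ample field: on a curve with a point over the finite extension `N` at which the
projection to the line is etale there are pairs of such points above the points `s` and `c s`. -/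
theorem step {K : Type} [Field K] (hK : Ample K) {N : Type} [Field N] [Algebra K N]
    [FiniteDimensional K N] {D : ℕ} (Q : Fin (D + 1) → Polynomial N) (α : N)
    (h0 : pval (fun k => (Q k).eval 0) α = 0) (h1 : dval (fun k => (Q k).eval 0) α ≠ 0) (c : K) :
    ∃ s : K, s ≠ 0 ∧
      (∃ α', pval (fun k => (Q k).eval (algebraMap K N s)) α' = 0 ∧
        dval (fun k => (Q k).eval (algebraMap K N s)) α' ≠ 0) ∧
      ∃ α', pval (fun k => (Q k).eval (algebraMap K N (c * s))) α' = 0 ∧
        dval (fun k => (Q k).eval (algebraMap K N (c * s))) α' ≠ 0 := by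
  obtain ⟨M, ⟨y₁, hy₁, hy₁'⟩, y₂, hy₂, hy₂'⟩ :=
    ((laurent_root Q α h0 h1 1).and (laurent_root Q α h0 h1 (algebraMap K N c))).exists
  rw [map_one, one_mul] at hy₁ hy₁'
  have ht : lmap (algebraMap K N) (tt K ^ M) = tt N ^ M := by
    rw [map_pow]
    congr 1
    ext a
    rw [lmap_coeff, tt, tt]
    by_cases h : a = 1
    · subst h
      simp
    · rw [HahnSeries.coeff_single_of_ne h, HahnSeries.coeff_single_of_ne h, map_zero]
  have ht0 : tt K ^ M ≠ 0 := pow_ne_zero _ (by
    rw [tt, Ne, HahnSeries.single_eq_zero_iff]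
    exact one_ne_zero)
  obtain ⟨x, y, hxy⟩ := hK.solve_ext (N := N) (eqs Q (algebraMap K N c))
    ![tt K ^ M, (tt K ^ M)⁻¹]
    ![y₁, (dval (fun k => (Q k).eval₂ HahnSeries.C (tt N ^ M)) y₁)⁻¹, y₂,
      (dval (fun k => (Q k).eval₂ HahnSeries.C
        (HahnSeries.C (algebraMap K N c) * tt N ^ M)) y₂)⁻¹] (by
      rw [eqs_iff]
      refine ⟨?_, ?_, ?_, ?_, ?_⟩
      · change lmap (algebraMap K N) (tt K ^ M) * lmap (algebraMap K N) (tt K ^ M)⁻¹ = 1
        rw [← map_mul, mul_inv_cancel₀ ht0, map_one]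
      · change pval (fun k => (Q k).eval₂ HahnSeries.C (lmap (algebraMap K N) (tt K ^ M))) y₁ = 0
        rw [ht]
        exact hy₁
      · change dval (fun k => (Q k).eval₂ HahnSeries.C (lmap (algebraMap K N) (tt K ^ M))) y₁ *
          (dval (fun k => (Q k).eval₂ HahnSeries.C (tt N ^ M)) y₁)⁻¹ = 1
        rw [ht]
        exact mul_inv_cancel₀ hy₁'
      · change pval (fun k => (Q k).eval₂ HahnSeries.C (HahnSeries.C (algebraMap K N c) *
          lmap (algebraMap K N) (tt K ^ M))) y₂ = 0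
        rw [ht]
        exact hy₂
      · change dval (fun k => (Q k).eval₂ HahnSeries.C (HahnSeries.C (algebraMap K N c) *
          lmap (algebraMap K N) (tt K ^ M))) y₂ * (dval (fun k => (Q k).eval₂ HahnSeries.C
            (HahnSeries.C (algebraMap K N c) * tt N ^ M)) y₂)⁻¹ = 1
        rw [ht]
        exact mul_inv_cancel₀ hy₂')
  have h2 := (eqs_iff Q (algebraMap K N c) (RingHom.id N)
    (Sum.elim (fun i => algebraMap K N (x i)) y)).1 hxy
  obtain ⟨e1, e2, e3, e4, e5⟩ := h2
  refine ⟨x 0, ?_, ⟨y 0, e2, ?_⟩, ⟨y 2, ?_, ?_⟩⟩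
  · intro h
    have : algebraMap K N (x 0) * algebraMap K N (x 1) = 1 := e1
    rw [h, map_zero, zero_mul] at this
    exact zero_ne_one this
  · intro h
    have h3 : dval (fun k => (Q k).eval₂ (RingHom.id N) (algebraMap K N (x 0))) (y 0) * y 1 = 1 :=
      e3
    change dval (fun k => (Q k).eval₂ (RingHom.id N) (algebraMap K N (x 0))) (y 0) = 0 at h
    rw [h, zero_mul] at h3
    exact zero_ne_one h3
  · rw [map_mul]
    exact e4
  · intro h
    have h3 : dval (fun k => (Q k).eval₂ (RingHom.id N)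
      (algebraMap K N c * algebraMap K N (x 0))) (y 2) * y 3 = 1 := e5
    rw [map_mul] at h
    change dval (fun k => (Q k).eval₂ (RingHom.id N)
      (algebraMap K N c * algebraMap K N (x 0))) (y 2) = 0 at h
    rw [h, zero_mul] at h3
    exact zero_ne_one h3

end Pool.Agent.Helper7.AF
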