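import Pool.Agent.Helper7.AF.Step

/-!
# Generic points over ample fields
-/

set_option autoImplicit false

namespace Pool.Agent.Helper7.AF

open Cardinal Pool.Agent.Helper7.BS

open scoped IntermediateField.algebraAdjoinAdjoin in
/-- the transcendence degree of an algebraically closed subfield -/
theorem trdeg_le {P Ω : Type} [Field P] [Field Ω] [Algebra P Ω] (R : Set Ω)
    (C : IntermediateField P Ω) (hR : R ⊆ C)
    (hC : ∀ w ∈ C, IsAlgebraic (IntermediateField.adjoin P R) w) :
    Algebra.trdeg P C ≤ #R := by
  let R' : Set C := Subtype.val ⁻¹' R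
  have h1 : #R' ≤ #R := by
    refine Cardinal.mk_le_of_injective (f := fun r : R' => (⟨r.1, r.2⟩ : R)) fun x y h => ?_
    have h2 : ((x : C) : Ω) = ((y : C) : Ω) := congrArg (fun z : R => (z : Ω)) h
    exact Subtype.ext (Subtype.ext h2)
  have himg : Subtype.val '' R' = R := by
    ext x
    constructor
    · rintro ⟨y, hy, rfl⟩
      exact hy
    · intro hx
      exact ⟨⟨x, hR hx⟩, hx, rfl⟩
  have hmap : (Algebra.adjoin P R').map C.val = Algebra.adjoin P R := by
    rw [AlgHom.map_adjoin]
    congr 1
  let f : Algebra.adjoin P R' →+* Algebra.adjoin P R :=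
    (C.val.toRingHom.comp (Algebra.adjoin P R').val.toRingHom).codRestrict _ fun z => by
      change C.val z ∈ Algebra.adjoin P R
      rw [← hmap]
      exact ⟨z, z.2, rfl⟩
  have hf : Function.Surjective f := by
    rintro ⟨z, hz⟩
    rw [← hmap] at hz
    obtain ⟨y, hy, rfl⟩ := hz
    exact ⟨⟨y, hy⟩, rfl⟩
  have : Algebra.IsAlgebraic (Algebra.adjoin P R') C := by
    refine ⟨fun w => ?_⟩
    have h2 : IsAlgebraic (Algebra.adjoin P R) (w : Ω) :=
      (IsFractionRing.isAlgebraic_iff (Algebra.adjoin P R) (IntermediateField.adjoin P R) Ω).2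
        (hC w w.2)
    exact IsAlgebraic.of_ringHom_of_comp_eq (S := Algebra.adjoin P R) (B := Ω) f
      C.val.toRingHom h2 hf C.val.injective rfl
  exact (Algebra.IsAlgebraic.trdeg_le_cardinalMk P R').trans h1

/-- a transcendental element -/
theorem exists_transc {P K Ω : Type} [Field P] [Field K] [Algebra P K] [Field Ω] [Algebra P Ω]
    (i : K →ₐ[P] Ω) (R : Set Ω) (hR : #R < Algebra.trdeg P K) :
    ∃ c : K, Transcendental (IntermediateField.adjoin P R) (i c) := by
  by_contra hcon
  have h : ∀ c : K, IsAlgebraic (IntermediateField.adjoin P R) (i c) := by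
    intro c
    by_contra h2
    exact hcon ⟨c, h2⟩
  let C : IntermediateField P Ω :=
    (algebraicClosure (IntermediateField.adjoin P R) Ω).restrictScalars P
  have hCm : ∀ w, w ∈ C ↔ IsAlgebraic (IntermediateField.adjoin P R) w := fun w =>
    mem_algebraicClosure_iff
  have h1 : Algebra.trdeg P C ≤ #R := by
    refine trdeg_le R C (fun w hw => (hCm w).2 ?_) fun w hw => (hCm w).1 hw
    exact isAlgebraic_algebraMap
      (⟨w, IntermediateField.subset_adjoin P R hw⟩ : IntermediateField.adjoin P R)
  let f : K →ₐ[P] C := i.codRestrict C.toSubalgebra fun c => (hCm _).2 (h c)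
  have h2 : Algebra.trdeg P K ≤ Algebra.trdeg P C :=
    trdeg_le_of_injective f f.toRingHom.injective
  exact absurd hR (not_lt.2 (h2.trans h1))

/-- algebraicity over a bigger ring of coefficients -/
theorem alg_of_subset {P B Ω : Type} [Field P] [Field B] [Field Ω] [Algebra P Ω] [Algebra B Ω]
    (S : Set Ω) (R : Set Ω) (hB : ∀ b : B, algebraMap B Ω b ∈ IntermediateField.adjoin P R)
    (hS : S ⊆ IntermediateField.adjoin P R) (w : Ω) (h : IsAlgebraic (Algebra.adjoin B S) w) :
    IsAlgebraic (IntermediateField.adjoin P R) w := by
  have h1 : ∀ z ∈ Algebra.adjoin B S, z ∈ IntermediateField.adjoin P R := by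
    intro z hz
    induction hz using Algebra.adjoin_induction with
    | mem x hx => exact hS hx
    | algebraMap r => exact hB r
    | add x y _ _ hx hy => exact add_mem hx hy
    | mul x y _ _ hx hy => exact mul_mem hx hy
  let f : Algebra.adjoin B S →+* IntermediateField.adjoin P R :=
    (Algebra.adjoin B S).val.toRingHom.codRestrict _ fun z => h1 z z.2
  have hf : Function.Injective f := fun x y h => Subtype.ext
    (congrArg (fun z : IntermediateField.adjoin P R => (z : Ω)) h)
  exact h.ringHom_of_comp_eq (S := IntermediateField.adjoin P R) (B := Ω) f (RingHom.id Ω) hf rfl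

theorem aeval_shift {P N T : Type} [Field P] [Field N] [Algebra P N] [DecidableEq T]
    (p : MvPolynomial T P) (w : T → N) (τ₀ : T) (θ z : N) :
    (MvPolynomial.aeval (fun τ => Polynomial.C (w τ) +
      if τ = τ₀ then Polynomial.C θ * Polynomial.X else 0) p : Polynomial N).eval z =
      MvPolynomial.aeval (fun τ => w τ + if τ = τ₀ then θ * z else 0) p := by
  let f : Polynomial N →ₐ[P] N := (Polynomial.aeval z).restrictScalars P
  have h : f.comp (MvPolynomial.aeval (fun τ => Polynomial.C (w τ) +
      if τ = τ₀ then Polynomial.C θ * Polynomial.X else 0)) =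
      MvPolynomial.aeval (fun τ => w τ + if τ = τ₀ then θ * z else 0) := by
    apply MvPolynomial.algHom_ext
    intro τ
    rw [AlgHom.comp_apply, MvPolynomial.aeval_X, MvPolynomial.aeval_X, map_add]
    congr 1
    · simp [f]
    · split_ifs
      · simp [f]
      · simp
  have h2 := congrArg (fun g => g p) h
  simp only [AlgHom.comp_apply] at h2
  rw [← h2]
  simp only [f, AlgHom.coe_restrictScalars', Polynomial.coe_aeval_eq_eval]

/-- Generic tuples near a point, over an ample field. -/
theorem exists_tuple {P K N Ω T : Type} [Field P] [Field K] [Algebra P K] [Field N] [Algebra K N]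
    [Algebra P N] [IsScalarTower P K N] [FiniteDimensional K N] [Field Ω] [Algebra P Ω] [Finite T]
    (hK : Ample K) (hκ : ℵ₀ ≤ Algebra.trdeg P K) (i : N →ₐ[P] Ω) {n : ℕ} (θ : Fin n → N)
    {D : ℕ} (g : Fin (D + 1) → MvPolynomial T P) (a : T → N) (α : N)
    (h0 : pval (fun k => MvPolynomial.aeval a (g k)) α = 0)
    (h1 : dval (fun k => MvPolynomial.aeval a (g k)) α ≠ 0)
    (R : Set Ω) (hR : #R < Algebra.trdeg P K) :
    ∃ e : Fin n × T → K,
      AlgebraicIndependent (IntermediateField.adjoin P R)
        (fun v => i (algebraMap K N (e v))) ∧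
      ∃ α', pval (fun k => MvPolynomial.aeval (fun τ => a τ + ∑ j, e (j, τ) • θ j) (g k)) α' = 0 ∧
        dval (fun k => MvPolynomial.aeval (fun τ => a τ + ∑ j, e (j, τ) • θ j) (g k)) α' ≠ 0 := by
  classical
  have _ : Fintype T := Fintype.ofFinite T
  have key : ∀ S : Finset (Fin n × T), ∃ e : Fin n × T → K, (∀ v ∉ S, e v = 0) ∧
      AlgebraicIndepOn (IntermediateField.adjoin P R)
        (fun v => i (algebraMap K N (e v))) (S : Set (Fin n × T)) ∧
      ∃ α', pval (fun k => MvPolynomial.aeval (fun τ => a τ + ∑ j, e (j, τ) • θ j) (g k)) α' = 0 ∧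
        dval (fun k => MvPolynomial.aeval (fun τ => a τ + ∑ j, e (j, τ) • θ j) (g k)) α' ≠ 0 := by
    intro S
    induction S using Finset.induction_on with
    | empty =>
      refine ⟨fun _ => 0, fun _ _ => rfl, ?_, α, ?_, ?_⟩
      · rw [Finset.coe_empty]
        exact (algebraicIndependent_empty_type_iff (ι := (∅ : Set (Fin n × T)))).2
          (algebraMap (IntermediateField.adjoin P R) Ω).injective
      · simpa using h0
      · simpa using h1
    | insert v₀ S hv₀ ih =>
      obtain ⟨e, he0, he1, α', h2, h3⟩ := ih
      obtain ⟨j₀, τ₀⟩ := v₀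
      let w : T → N := fun τ => a τ + ∑ j, e (j, τ) • θ j
      let Q : Fin (D + 1) → Polynomial N := fun k =>
        MvPolynomial.aeval (fun τ => Polynomial.C (w τ) +
          if τ = τ₀ then Polynomial.C (θ j₀) * Polynomial.X else 0) (g k)
      have hQ : ∀ k z, (Q k).eval z = MvPolynomial.aeval
          (fun τ => w τ + if τ = τ₀ then θ j₀ * z else 0) (g k) := fun k z =>
        aeval_shift (g k) w τ₀ (θ j₀) z
      have hQ0 : (fun k => (Q k).eval 0) = fun k => MvPolynomial.aeval w (g k) := by
        funext k
        rw [hQ]
        congr 2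
        funext τ
        split_ifs <;> simp
      have hQs : ∀ s : K, (fun k => (Q k).eval (algebraMap K N s)) = fun k =>
          MvPolynomial.aeval (fun τ => a τ + ∑ j, Function.update e (j₀, τ₀) s (j, τ) • θ j)
            (g k) := by
        intro s
        funext k
        rw [hQ]
        congr 2
        funext τ
        have h4 : ∑ j, Function.update e (j₀, τ₀) s (j, τ) • θ j =
            ∑ j, e (j, τ) • θ j + if τ = τ₀ then θ j₀ * algebraMap K N s else 0 := by
          by_cases hτ : τ = τ₀
          · subst hτ
            rw [if_pos rfl, ← Finset.add_sum_erase _ _ (Finset.mem_univ j₀),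
              ← Finset.add_sum_erase (Finset.univ) (fun j => e (j, τ) • θ j)
                (Finset.mem_univ j₀), Function.update_self, he0 _ hv₀, zero_smul, zero_add,
              add_comm, Algebra.smul_def, mul_comm]
            congr 1
            refine Finset.sum_congr rfl fun j hj => ?_
            rw [Function.update_of_ne]
            intro h
            exact (Finset.ne_of_mem_erase hj) (Prod.ext_iff.1 h).1
          · rw [if_neg hτ, add_zero]
            refine Finset.sum_congr rfl fun j _ => ?_
            rw [Function.update_of_ne]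
            intro h
            exact hτ (Prod.ext_iff.1 h).2
        rw [h4, ← add_assoc]
      let R' : Set Ω := R ∪ (fun v => i (algebraMap K N (e v))) '' (S : Set (Fin n × T))
      have hR' : #R' < Algebra.trdeg P K := by
        refine (Cardinal.mk_union_le _ _).trans_lt (Cardinal.add_lt_of_lt hκ hR ?_)
        refine lt_of_lt_of_le ?_ hκ
        exact Cardinal.lt_aleph0_iff_set_finite.2 ((Finset.finite_toSet S).image _)
      obtain ⟨c, hc⟩ := exists_transc (i.comp (IsScalarTower.toAlgHom P K N)) R' hR'
      obtain ⟨s, hs0, hs1, hs2⟩ := step hK Q α' (by rw [hQ0]; exact h2) (by rw [hQ0]; exact h3) c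
      have fin : ∀ s' : K, Transcendental (IntermediateField.adjoin P R') (i (algebraMap K N s')) →
          (∃ α', pval (fun k => (Q k).eval (algebraMap K N s')) α' = 0 ∧
            dval (fun k => (Q k).eval (algebraMap K N s')) α' ≠ 0) →
          ∃ e : Fin n × T → K, (∀ v ∉ insert (j₀, τ₀) S, e v = 0) ∧
            AlgebraicIndepOn (IntermediateField.adjoin P R)
              (fun v => i (algebraMap K N (e v))) ((insert (j₀, τ₀) S : Finset (Fin n × T)) :
                Set (Fin n × T)) ∧
            ∃ α', pval (fun k => MvPolynomial.aeval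
              (fun τ => a τ + ∑ j, e (j, τ) • θ j) (g k)) α' = 0 ∧
              dval (fun k => MvPolynomial.aeval
                (fun τ => a τ + ∑ j, e (j, τ) • θ j) (g k)) α' ≠ 0 := by
        rintro s' hs' ⟨α₂, h4, h5⟩
        rw [hQs] at h4 h5
        refine ⟨Function.update e (j₀, τ₀) s', ?_, ?_, α₂, h4, h5⟩
        · intro v hv
          rw [Finset.mem_insert, not_or] at hv
          rw [Function.update_of_ne hv.1]
          exact he0 v hv.2
        · rw [Finset.coe_insert]
          have h6 : ∀ v ∈ S, Function.update e (j₀, τ₀) s' v = e v := by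
            intro v hv
            rw [Function.update_of_ne]
            rintro rfl
            exact hv₀ hv
          have h7 : (fun v => i (algebraMap K N (Function.update e (j₀, τ₀) s' v))) ''
              (S : Set (Fin n × T)) = (fun v => i (algebraMap K N (e v))) '' S := by
            refine Set.image_congr fun v hv => ?_
            rw [h6 v hv]
          refine AlgebraicIndepOn.insert ?_ ?_
          · refine (Eq.mp ?_ he1)
            unfold AlgebraicIndepOn
            congr 1
            funext v
            exact congrArg (fun x => i (algebraMap K N x)) (h6 v.1 v.2).symm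
          · rw [h7, Function.update_self]
            intro h8
            refine hs' (alg_of_subset _ R' ?_ ?_ _ h8)
            · intro b
              exact IntermediateField.adjoin.mono P R R' Set.subset_union_left b.2
            · intro x hx
              exact IntermediateField.subset_adjoin P R' (Set.subset_union_right hx)
      by_cases h9 : IsAlgebraic (IntermediateField.adjoin P R') (i (algebraMap K N s))
      · refine fin (c * s) ?_ hs2
        intro h10
        apply hc
        have h11 : i (algebraMap K N s) ≠ 0 := by
          rw [Ne, map_eq_zero, map_eq_zero]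
          exact hs0
        have h12 : (i.comp (IsScalarTower.toAlgHom P K N)) c =
            i (algebraMap K N (c * s)) * (i (algebraMap K N s))⁻¹ := by
          rw [map_mul, map_mul, mul_inv_cancel_right₀ h11]
          rfl
        rw [h12]
        exact h10.mul h9.inv
      · exact fin s h9 hs1
  obtain ⟨e, -, he1, he2⟩ := key Finset.univ
  refine ⟨e, ?_, he2⟩
  rw [Finset.coe_univ] at he1
  exact AlgebraicIndependent.comp he1 (fun v => ⟨v, Set.mem_univ v⟩)
    fun v w h => congrArg Subtype.val h

end Pool.Agent.Helper7.AF
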